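import Mathlib
import Pool.Agent.J4H9.SVStm

/-!
# MP_4776b1_ag: the conjectures of Jannsen for all singular varieties over finite fields which are built
# from abelian varieties in almost all isogeny classes, also for a fixed finite field

**The conjectures.** Let `k` be a finite field. A `CycleTheory` consists of the groups
`C i j X = CH_i(X, j) ⊗ ℚ` for the schemes `X` over `k` (`C i 0 X = CH_i(X) ⊗ ℚ`), of the étale
Borel-Moore homology `H i j X = H_(2 i + j)(X ⊗ k̄, E(i))` with coefficients in an `ℓ`-adic field `E`,
the action `F` of the Frobenius automorphism and the cycle maps `cl : C i j X → H i j X`. We use their
known properties `IsCycleTheory`: the homology is finite-dimensional, the values of `cl` are fixed by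
`F`, and there are localization sequences for a closed subscheme and its complement (Bloch, Levine) and
isomorphisms for affine bundles; and the theorem `AbelianTheorem` for abelian varieties such that all
Tate classes are generated by those of degree two (Tate, Soulé, Kahn).
For a scheme `X` of finite type over `k`, possibly singular and not proper, `Jannsen T i X` contains:
`B_i(X) ⊗ ℚ` has a finite rational basis `b`, which is also a basis over `E` of the space of the classes
in `H_(2 i)(X ⊗ k̄, E(i))` which are fixed by the Galois group (so (a), and (b) with rational
coefficients), and the rank of `B_i(X)` is the order of the pole of the `L`-function at `s = i` (Q2, as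
`dim_a(k) = 0`). `StrongTate T X` is the stronger assertion that for all `i` and `j` the cycle map
`CH_i(X, j) ⊗ E → H_(2 i + j)(X ⊗ k̄, E(i))` is injective and its image is the part on which the
Frobenius has the generalized eigenvalue one.

**The schemes.** Let `f 1, …, f m` be Weil polynomials over the field with `q` elements.
`IsMember q b f` contains the abelian varieties `B` over all extensions `k'` of this field (as schemes
over `k`) with a characteristic polynomial of Frobenius `h₁ h₂`, where all roots of `h₁` are powers of
roots of the `f i`, and `h₂` has the degree at most `b` and no exotic Tate classes (`NoExotic`). So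
these are the abelian varieties which are isogenous over `k'` to products `B₁ × B₂`, `B₁` a product of
factors (with any multiplicities) of the abelian varieties with the characteristic polynomials `f i`,
and `B₂` any abelian variety of dimension at most `b / 2` such that all Tate classes on `B₂` are
generated by those of degree two; for example products of elliptic curves, or zero. `Built` is the
smallest class of separated schemes of finite type over `k` which contains these, and all schemes for
which `StrongTate` is true, and which contains with two of the three schemes `Z` (closed in `X`), `X`,
`X \ Z` also the third one, and with the base of an affine bundle also the total space, and conversely: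
so it contains all open complements of unions of (translates of) such abelian subvarieties, these
unions themselves, such abelian varieties with finitely many points identified, cones, vector bundles,
projective bundles, torus bundles (semiabelian varieties) and their compactifications, and blowing ups
with such centres.

**The theorem.** Let `q = p ^ a` and let `ν` be a symmetric Newton polygon with the slopes
`lam 0 ≤ lam 1 ≤ ⋯ ≤ lam (g - 1)`, `0 ≤ lam i ≤ 1 / 2`. The set `newtonAbove p a lam g` consists of
the Weil polynomials of degree `2 g` over the field with `q` elements whose Newton polygon is not below
`ν`, and the set `newtonThrough p a lam g E` of those members whose Newton polygon meets `ν` over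
all points of the set `E`. Assume that the height of `ν` over `g` is at most `(1 / 2 - μ) g`. Let `S` be
a subset of `newtonAbove p a lam g` with at least `1 / D` times as many elements as
`newtonThrough p a lam g E`. With at most `m ^ 2 D 2 ^ #E 8 ^ g q ^ (- (μ / 4 - ε) g)` times the number
of all tuples as exceptions, the tuples `(f 1, …, f m)` of elements of `S` satisfy
`SingularTateFor q (g / 2) f`: the conjectures of Jannsen and `StrongTate` are true for all schemes
that are built from the abelian varieties in `IsMember q (g / 2) f` (and other schemes with the
property `StrongTate`).

So if `q > 2 ^ (12 / μ)` is fixed and `g` tends to infinity, then the conjectures are true for all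
schemes built in this way from the abelian varieties in almost all isogeny classes in each Newton
stratum; the slopes `lam i = 0` give all abelian varieties.

**The proof.** (1) The functor of the generalized eigenvalue one is exact on finite-dimensional spaces
with an endomorphism, so by the five lemma `StrongTate` has the closure properties of `Built`; note
that the Frobenius need not be semisimple on the homology of the schemes built in this way, this is
part of the conclusion for the eigenvalue one. (2) The counting part is that of
`MP_021685_ag/NewtonStrata`: it shows that the conjugates of the Weil numbers have no multiplicative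
relations except for those of the complex conjugate pairs, even together with the numbers of degree at
most `g / 2`; this gives `NoExotic` for `h₁ h₂`, and the theorems of Tate, Soulé and Kahn apply.
(3) `StrongTate` implies that the classes of the cycles span the space of the fixed classes, and that
the generalized eigenspace for the eigenvalue one is equal to this space, so its dimension, the order of
the pole of the `L`-function, is the rank of `B_i(X)`.
-/

set_option autoImplicit false

namespace Pool.Agent.Results.MP_4776b1_ag.AlmostAllIsogenyClasses

open Polynomial Pool.Agent.J4H9.NGauss Pool.Agent.J4H9.NStm Pool.Agent.J4H9.SV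

universe w

theorem result (μ ε : ℝ) (hμ : 0 < μ) (hμ1 : μ ≤ 1 / 2) (hε : 0 < ε) (hε1 : ε < μ / 4) :
    ∃ g₀ : ℕ, ∀ g : ℕ, g₀ ≤ g → ∀ p a : ℕ, p.Prime → 0 < a → ∀ lam : ℕ → ℝ, Slopes lam →
      ∑ i ∈ Finset.range g, lam i ≤ (1 / 2 - μ) * g →
      ∀ E : Finset ℕ, (∀ j ∈ E, 0 < j ∧ j ≤ g ∧
        ∃ n : ℕ, (a : ℝ) * ∑ i ∈ Finset.range j, lam i = n) →
      ((newtonAbove p a lam g).Finite ∧
        (64 ≤ ((p ^ a : ℕ) : ℝ) ^ (μ / 2) → 0 < (newtonThrough p a lam g E).ncard)) ∧
      ∀ (S : Set ℤ[X]) (D : ℝ), S ⊆ newtonAbove p a lam g → 1 ≤ D →
        ((newtonThrough p a lam g E).ncard : ℝ) ≤ D * S.ncard → ∀ m : ℕ,
        ({f : Fin m → ℤ[X] | (∀ i, f i ∈ S) ∧ ¬ SingularTateFor.{w} (p ^ a) (g / 2) f}.ncard : ℝ) ≤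
          (m : ℝ) ^ 2 * D * 2 ^ E.card * 8 ^ g *
            ((p ^ a : ℕ) : ℝ) ^ (-((μ / 4 - ε) * g)) * (S.ncard : ℝ) ^ m :=
  singular_main hμ hμ1 hε hε1

end Pool.Agent.Results.MP_4776b1_ag.AlmostAllIsogenyClasses
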