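import Pool.Agent.J4H10.JV.Main2

/-!
# Jannsen's conjectures for the cyclic covers `z ^ m = h(y) h_1(x_1) ... h_r(x_r) D(x)` of arbitrary varieties

Let `k` be a finitely generated field, `m > 1` a power of a prime `ℓ` different from the characteristic, such that
`k` contains the `m`-th roots of unity. Let `Y` be ANY variety over `k` (it may be singular and open), `h` ANY
regular function on `Y`, `h_1, ..., h_r` ANY nonconstant polynomials in one variable without multiple
roots, `D` one more, and

`X : z ^ m = h(y) h_1(x_1) ... h_r(x_r) D(x)` in `Y × 𝔸 ^ (r + 2)`.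

Suppose that some element of the Galois group of `k` permutes the roots of `D` in one cycle, that its cycles on the
roots of the `h_j` have lengths prime to `d = deg D`, and that `d` is prime to `ℓ` and to the numbers `ℓ ^ e - 1`,
`1 ≤ e ≤ b`. Here `b` depends only on `Y`, `h` and `m`: it is the largest dimension of the groups
`H_c(Ȳ, L_χ(h))` for the characters `χ ≠ 1` of the group of the `m`-th roots of unity (for the coefficients
`ℚ_ℓ`); the last condition is empty if `Y` is a point.

**Consequence of the theorem** (in words). Jannsen's statement (a) holds for `X` in dimension `i` if and only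
if it holds for `Y` in dimension `i - r - 1`; the same is true for (b), and for Q2 if the characteristic of `k` is
positive. In particular (`Y` a point): if `D` is ANY separable irreducible polynomial of prime degree `d ≠ ℓ` over
any finitely generated field `k` with the `m`-th roots of unity, and `h_1, ..., h_r` are any polynomials of degrees less than
`d` without multiple roots, then the singular hypersurface `z ^ m = h_1(x_1) ... h_r(x_r) D(x)` satisfies (a), (b)
(and Q2 in positive characteristic) in all dimensions, without any hypothesis (a transitive group of prime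
degree contains a cycle of length `d`). For `Y = 𝔸 ^ n` and EVERY polynomial `h` in `n` variables
this is true if also `d` is prime to the numbers `ℓ ^ e - 1`, `e ≤ b`.

The same holds for the products of `Y` with affine or smooth projective curves `z ^ m = h_j(x)`, `z ^ m = D(x)`, if
each nonempty product of the nonconstant parts contains a good `D`.

Proof. Let `π` be the finite map of `X` to `Y × 𝔸 ^ (r + 1)`. The direct image of `ℚ_ℓ` is, over the field of the
`m`-th roots of unity, the sum of the constant sheaf and of the sheaves `L_χ(h) ⊗ L_χ(h_1) ⊗ ... ⊗ L_χ(D)`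
(extended by zero), `χ ≠ 1`. By Künneth the part `χ` of the cohomology with compact supports of `X̄` is the
tensor product of `H_c(Ȳ, L_χ(h))` and of the groups `H_c ^ 1(𝔸 ^ 1, L_χ(h_j))`, `H_c ^ 1(𝔸 ^ 1, L_χ(D))`. Let
first `k` be finite with `q` elements. The eigenvalues of Frobenius on this part are the products `α γ_1 ... γ_r γ`,
where `α` is an algebraic integer, an eigenvalue of Frobenius on `H_c(Ȳ, L_χ(h))`, and the others are the
inverse roots of the L-functions. The theorem below says that they are different from the powers of `q`, also
over all extensions of degree `n` prime to `d`. So the group `H_2i(X̄, ℚ_ℓ(i))` and its subspace of Tate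
classes, in the generalized sense, come from the constant part, the homology of `Y × 𝔸 ^ (r + 1)`; and `π_*` is
surjective on the Chow groups with rational coefficients. If `k` is finitely generated, one applies this at a
closed point of a model of `k` where Frobenius is the given element of the Galois group (Chebotarev): there
is no invariant, and in positive characteristic no contribution to the pole of the L-function, from the parts
`χ ≠ 1`.

The theorem itself is proved by congruences modulo a prime above `ℓ`: the L-function of `L_χ(h)` for `h` with the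
prime factors `π` is congruent to `∏ (1 - T ^ (deg π)) / (1 - T)`, so its inverse roots are congruent to zero or
to roots of unity of order dividing some `deg π`, and for `D` to nontrivial roots of unity of order dividing `d`;
`q` is congruent to one, and `α` (acting on a lattice) is congruent to zero or to an element of order prime to `d`.
-/

set_option autoImplicit false

namespace Pool.Agent.Results.MP_4776b1_ag.CyclicCoversByPrimes

open Polynomial

/-- The Euler product: its coefficient of index `n` is that of the product of the factors of degree
at most `n`. -/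
noncomputable def eulerProduct {I : Type} (deg : I → ℕ) (f : I → PowerSeries ℂ) :
    PowerSeries ℂ :=
  PowerSeries.mk fun n => PowerSeries.coeff n (∏ᶠ (j : I) (_ : deg j ≤ n), f j)

variable {k : Type} [Field k]

/-- The value of the character `χ` of `k` at the norm to `k` of the residue of `D` modulo `P`: the trace of
Frobenius at the closed point `P` of the line on the sheaf `L_χ(D)`. -/
noncomputable def symbol (χ : MulChar k ℂ) (D P : k[X]) : ℂ :=
  χ (Algebra.norm k (AdjoinRoot.mk P D))

/-- The Euler factor at the closed point `P` of the line. -/
noncomputable def localFactor (χ : MulChar k ℂ) (D P : k[X]) : PowerSeries ℂ :=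
  (1 - PowerSeries.C (symbol χ D P) * PowerSeries.X ^ P.natDegree)⁻¹

/-- The L-function of the sheaf `L_χ(D)` on the line over `k`. -/
noncomputable def Lfun (χ : MulChar k ℂ) (D : k[X]) : PowerSeries ℂ :=
  eulerProduct (fun P : {P : k[X] // P.Monic ∧ Irreducible P} => P.1.natDegree)
    fun P => localFactor χ D P.1

/-- **Products of Frobenius eigenvalues which are not powers of `q`.** Let `k` be a finite field with `q`
elements, `ℓ` a prime and `J` a finite set. For `j` in `J` let `χ_j ≠ 1` be a character of `k` whose order is a
power of `ℓ`, and let `D_j` in `k[x]` be squarefree and not constant. Suppose that for one `j₀` the polynomial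
`D_(j₀)` is irreducible and that its degree `d` is prime to `ℓ` and to the degrees of the prime factors of
all other `D_j`. Then the L-function of `L_(χ_j)(D_j)` is a polynomial of degree at most `deg D_j - 1`, and for

* all algebraic integers `α` whose image in some field `κ` of characteristic `ℓ` is zero or a root of unity
  of order dividing a number `M` prime to `d`,
* all inverse roots `γ_j` of the L-functions,
* all `n` prime to `d`, and all integers `i`,

`(α ∏ γ_j) ^ n ≠ q ^ i`. -/
theorem result (k : Type) [Field k] [Finite k] (ℓ : ℕ) [Fact ℓ.Prime] {J : Type} [Fintype J]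
    (χ : J → MulChar k ℂ) (hχ : ∀ j, χ j ≠ 1 ∧ ∃ a, χ j ^ ℓ ^ a = 1) (D : J → k[X])
    (hD : ∀ j, Squarefree (D j) ∧ 0 < (D j).natDegree) (j₀ : J) (hirr : Irreducible (D j₀))
    (hℓ : Nat.Coprime (D j₀).natDegree ℓ)
    (hco : ∀ j, j ≠ j₀ → ∀ π : k[X], Irreducible π → π ∣ D j →
      Nat.Coprime (D j₀).natDegree π.natDegree) :
    ∃ L : J → ℂ[X],
      (∀ j, Lfun (χ j) (D j) = (L j : PowerSeries ℂ) ∧
        (L j).natDegree ≤ (D j).natDegree - 1) ∧
      ∀ (κ : Type) [Field κ] [CharP κ ℓ] (φ : integralClosure ℤ ℂ →+* κ)
        (α : integralClosure ℤ ℂ) (M : ℕ), Nat.Coprime (D j₀).natDegree M →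
        (φ α = 0 ∨ φ α ^ M = 1) → ∀ γ : J → ℂ, (∀ j, (L j).eval (γ j)⁻¹ = 0) →
        ∀ (n : ℕ) (i : ℤ), Nat.Coprime n (D j₀).natDegree →
          ((α : ℂ) * ∏ j, γ j) ^ n ≠ (Nat.card k : ℂ) ^ i :=
  Pool.Agent.J4H10.JV.main2 ℓ χ hχ D hD j₀ hirr hℓ hco

/-- `α` may be any algebraic integer of degree at most `b` over `ℚ`, with `M = ∏ (ℓ ^ e - 1)`, `1 ≤ e ≤ b`. -/
theorem of_degree (ℓ : ℕ) [Fact ℓ.Prime] {κ : Type} [Field κ] [CharP κ ℓ]
    (φ : integralClosure ℤ ℂ →+* κ) (g : ℤ[X]) (b : ℕ) (α : integralClosure ℤ ℂ) (hg : g.Monic)
    (hb : g.natDegree ≤ b) (hα : aeval α g = 0) :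
    φ α = 0 ∨ φ α ^ (∏ e ∈ Finset.Icc 1 b, (ℓ ^ e - 1)) = 1 := by
  letI : Algebra (ZMod ℓ) κ := ZMod.algebra κ ℓ
  by_cases h0 : φ α = 0
  · exact Or.inl h0
  · refine Or.inr (Pool.Agent.J4H10.JV.pow_eq_one_of_zmod ℓ (g.map (Int.castRingHom (ZMod ℓ)))
      (hg.map _) b (natDegree_map_le.trans hb) _ h0 ?_)
    rw [aeval_def, eval₂_map]
    have h6 := congrArg φ hα
    rw [map_zero, aeval_def, hom_eval₂] at h6
    have h7 : φ.comp (algebraMap ℤ (integralClosure ℤ ℂ)) =
        (algebraMap (ZMod ℓ) κ).comp (Int.castRingHom (ZMod ℓ)) := RingHom.ext_int _ _
    rw [h7] at h6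
    exact h6

end Pool.Agent.Results.MP_4776b1_ag.CyclicCoversByPrimes
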