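import Pool.Agent.J4H12.JT.Final

/-!
# In positive characteristic part (a) of Jannsen's conjecture over finite fields implies everything

Let `k` be a finitely generated field of characteristic `p`. Jannsen's conjectures for arbitrary
(singular, open) varieties `X` over `k` are (a): the Tate classes in `H_2i(X̄, ℚ_ℓ(i))` are combinations
of classes of cycles; (b): moreover the rational classes of cycles form a rational structure of the
space of Tate classes; Q2: the order of the pole of the `L`-function at `s = i + tr.deg k` is the rank
of the group of classes of cycles. In characteristic zero (a) for all varieties is equivalent to (a) for
the smooth projective ones (Jannsen). We show that in characteristic `p` the statement (a) for open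
varieties is much stronger than the one for smooth projective varieties:

**Theorem.** The following are equivalent.
* (a) for all varieties over one finite field `k₀`;
* (b) for all varieties over `k₀`;
* Q2 for all varieties over `k₀`;
* the Tate conjecture and the semisimplicity of Frobenius at the eigenvalue one for all smooth
  projective varieties over `k₀`;
* the same four statements for a finitely generated extension `K` of `k₀` (in which `k₀` is
  algebraically closed).

So the equivalence of (a) for all varieties and (a) for the smooth projective ones, known in
characteristic zero, holds in characteristic `p` if and only if the Tate conjecture implies the
semisimplicity of Frobenius at the eigenvalue one.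

The statement is about homology theories with a Frobenius operator (`Homology`) which have the following
properties of the part of weight zero of étale Borel-Moore homology (`Geometric`): the localization
sequence for the complement of a closed subvariety of dimension at most `i` (whose homology is spanned
by the classes of its components); resolution by smooth projective varieties (alterations, proper
descent, weights); Poincaré duality. The passage from `k₀` to `K` uses models (`Spreads`, the theorem on
global invariant cycles) and base change (`Extends`).

Proof. Let `X` be a variety and `Z` a closed subvariety of dimension `i` which supports cycles whose
classes span the classes of all cycles on `X`. Then there are no nonzero classes of cycles on the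
complement `U`. So (a) for `U`, or Q2 for `U`, implies that the eigenvalue one does not occur on `H(U)`,
and the generalized eigenspace for `X` comes from `Z`, where it consists of classes of cycles. This is the
Tate conjecture and the semisimplicity for `X`. Both are inherited by quotients of the homology, so they
hold for all varieties if they hold for the smooth projective ones. The rational independence of classes
of cycles is a consequence of Poincaré duality for smooth projective varieties, and it is inherited too,
since the kernel of `H(P) → H(X)` is spanned, as far as it is fixed by Frobenius, by classes of cycles.
-/

set_option autoImplicit false

universe u

namespace Pool.Agent.Results.MP_4776b1_ag.PartAImpliesAll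

open Pool.Agent.J4H12.JT

/-- Let `T₀` and `T₁` be homology theories for varieties over the fields `k₀` and `K`, with the
properties `Geometric` for the classes `Sm₀` and `Sm₁` of smooth projective varieties, such that the
varieties over `K` have models over `k₀` (`Spreads`) and varieties over `k₀` can be considered over `K`
(`Extends`). Then (a), (b), Q2 and the strong Tate conjecture, for both fields, are all equivalent. -/
theorem result {E : Type u} [Field E] [CharZero E] {T₀ T₁ : Homology E} {Sm₀ : T₀.Var → Prop}
    {Sm₁ : T₁.Var → Prop} (h₀ : T₀.Geometric Sm₀) (h₁ : T₁.Geometric Sm₁) (hs : Spreads T₀ T₁)
    (he : Extends T₀ T₁) :
    List.TFAE [T₀.AllA, T₀.AllB, T₀.AllQ2, T₀.StrongTate Sm₀,
      T₁.AllA, T₁.AllB, T₁.AllQ2, T₁.StrongTate Sm₁] :=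
  two_fields h₀ h₁ hs he

end Pool.Agent.Results.MP_4776b1_ag.PartAImpliesAll
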