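import Pool.Agent.J4H10.TF.Tate

/-!
# MP_4776b1_ag: the conjectures of Jannsen over finite fields, and trilinear forms

Let `k` be a finite field. A `CycleTheory` (helper file `J4H9/SVDefs`) consists of the groups
`C i j X = CH_i(X, j) ⊗ ℚ` for the schemes `X` over `k` (`C i 0 X = CH_i(X) ⊗ ℚ`), of the étale
Borel-Moore homology `H i j X = H_(2 i + j)(X ⊗ k̄, E(i))` with coefficients in an `ℓ`-adic field `E`, the
action `F` of the Frobenius automorphism and the cycle maps `cl : C i j X → H i j X`. The hypothesis
`IsTheory` collects known properties (Bloch, Levine): the homology is finite-dimensional, the values of `cl`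
are fixed by `F`, localization sequences, homotopy invariance for affine bundles (also in the form used
here, for the affine bundles of Jouanolou), and the groups of `X` are direct factors of those of
`X × 𝔾_m` (pull back, and restriction to the unit section).

`Jannsen T i X` contains, with rational coefficients, the conjectures (a) and (b) of Jannsen for `X` and the
dimension `i`, and Q2: `B_i(X) ⊗ ℚ` has a finite rational basis, which is also a basis over `E` of the space
of the classes in `H_(2 i)(X ⊗ k̄, E(i))` fixed by the Galois group, and the rank of `B_i(X)` is the order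
of the pole of the `L`-function at `s = i`. `StrongTate T X` is the assertion that for all `i` and `j` the
cycle map `CH_i(X, j) ⊗ E → H_(2 i + j)(X ⊗ k̄, E(i))` is injective and its image is the part on which the
Frobenius has the generalized eigenvalue one. It implies `Jannsen T i X` for all `i`. (The conjectures of
Tate, Beilinson and Parshin over finite fields imply `StrongTate` for all `X`.)

**The theorem.** For every `d`, `StrongTate` is true for all separated schemes of finite type over `k` and of
dimension at most `d` (equivalently, for the smooth ones) if and only if it is true for the smooth affine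
cubic hypersurfaces `t(x, y, z) = 1`, where `t` is a trilinear form over `k` and one of its three blocks of
variables has at most `d + 2` variables. It is true for all separated schemes of finite type over `k` if and
only if it is true for all `t(x, y, z) = 1`; if `k` is a prime field, the forms with coefficients `0` and `1`
are sufficient.

**Consequence** (in words): for curves over finite fields `StrongTate` is known (Weil; Soulé, Harder). So
`StrongTate`, and the conjectures (a), (b) and Q2, with rational coefficients, are true for the
hypersurfaces `t(x, y, z) = 1` over finite fields, of arbitrary dimension, such that one of the three blocks of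
variables has at most three variables.
-/

set_option autoImplicit false

open CategoryTheory AlgebraicGeometry Pool.Agent.Y116.UV Pool.Agent.J4H9.SV

universe w

namespace Pool.Agent.Results.MP_4776b1_ag.TrilinearForms

variable {k : Type} [Field k] {E : Type} [Field E]

/-- The groups for `X` in the degrees `i`, `j` are direct factors of those for `Y` in the degrees `i'`,
`j'`, compatibly with the Frobenius and the cycle map. -/
def IsFactor (T : CycleTheory.{w} k E) (i j : ℤ) (X : Sch k) (i' j' : ℤ) (Y : Sch k) : Prop :=
  ∃ (s : T.C i j X ⟶ T.C i' j' Y) (s' : T.H i j X ⟶ T.H i' j' Y) (r : T.C i' j' Y ⟶ T.C i j X)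
    (r' : T.H i' j' Y ⟶ T.H i j X), Compat T s s' ∧ Compat T r r' ∧ s ≫ r = 𝟙 _ ∧ s' ≫ r' = 𝟙 _

/-- The properties of cycles and étale homology which are used: those of `IsCycleTheory`; if `U` is the
complement of `f_1 = … = f_r = 0` in `Spec B`, the groups for the affine bundle
`Spec B[w] / (∑ f_l w_l - 1)` of rank `r - 1` over `U` in the degrees `i + r - 1`, `j` are those for `U` in the
degrees `i`, `j`; and the groups for `Spec B` in the degrees `i`, `j` are direct factors of those for
`Spec B × 𝔾_m` in the degrees `i + 1`, `j`. -/
structure IsTheory (T : CycleTheory.{w} k E) : Prop extends IsCycleTheory T where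
  jou : ∀ (B : Type) [CommRing B] [Algebra k B] [Algebra.FiniteType k B] (r : ℕ) (f : Fin r → B)
    (U : Sch k) (u : U ⟶ aff k B), IsOpenImmersion u.left →
    Set.range u.left = {x : PrimeSpectrum B | ∃ l, f l ∉ x.asIdeal} →
    ∀ i j : ℤ, Same T (i + (r - 1)) j (aff k (Jou f)) i j U
  torus : ∀ (B : Type) [CommRing B] [Algebra k B] [Algebra.FiniteType k B] (i j : ℤ),
    IsFactor T i j (aff k B) (i + 1) j (aff k (LaurentPolynomial B))

/-- `StrongTate` for all separated schemes of finite type over `k` with the property `Q`. -/
def TateFor (T : CycleTheory.{w} k E) (Q : Sch k → Prop) : Prop :=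
  ∀ X : Sch k, FT True X → Q X → StrongTate T X

/-- `StrongTate` for the hypersurfaces `t(x, y, z) = 1` of all trilinear forms `t` over `k` with the
property `Q`; the three blocks of variables have `a`, `b`, `c` variables. -/
def TateForForms (T : CycleTheory.{w} k E)
    (Q : ∀ a b c : ℕ, (Fin a → Fin b → Fin c → k) → Prop) : Prop :=
  ∀ (a b c : ℕ) (t : Fin a → Fin b → Fin c → k), Q a b c t → StrongTate T (hypS t)

/-- **Theorem.** Let `k` be a finite field. (1) For every `d` the following are equivalent: `StrongTate` is
true for all separated schemes of finite type over `k` and of dimension at most `d`; for the smooth ones of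
dimension at most `d`; for the hypersurfaces `t(x, y, z) = 1` over `k`, for all trilinear forms `t` such that
one of the three blocks of variables has at most `d + 2` variables. (2) `StrongTate` is true for all
separated schemes of finite type over `k` if and only if it is true for `t(x, y, z) = 1`, for all trilinear
forms `t`. (3) If `k` is a prime field, the forms `t` with coefficients `0` and `1` are sufficient.
(4) `StrongTate` for `X` implies the conjectures of Jannsen for `X`: (a), (b), with rational coefficients, and
Q2. (5) The hypersurfaces `t(x, y, z) = 1` are smooth over `k`. -/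
theorem result [Finite k] [CharZero E] {T : CycleTheory.{w} k E} (hT : IsTheory T) :
    (∀ d : ℕ, List.TFAE [
      TateFor T fun X => topologicalKrullDim X.left ≤ d,
      TateFor T fun X => Smooth X.hom ∧ topologicalKrullDim X.left ≤ d,
      TateForForms T fun a b c _ => a ≤ d + 2 ∨ b ≤ d + 2 ∨ c ≤ d + 2]) ∧
    ((TateFor T fun _ => True) ↔ TateForForms T fun _ _ _ _ => True) ∧
    (Function.Surjective (Int.cast : ℤ → k) → ((TateFor T fun _ => True) ↔
      TateForForms T fun _ _ _ t => ∀ i j l, t i j l = 0 ∨ t i j l = 1)) ∧
    (∀ X : Sch k, FT True X → StrongTate T X → ∀ i : ℤ, Jannsen T i X) ∧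
    ∀ (a b c : ℕ) (t : Fin a → Fin b → Fin c → k), Smooth (hypS t).hom := by
  have hJ : Pool.Agent.J4H10.TF.IsTheoryJ T := ⟨hT.toIsCycleTheory, hT.jou, hT.torus⟩
  refine ⟨fun d => ?_, ?_, fun hk => ?_,
    fun X hX h i => jannsen_of_strongTate hT.toIsCycleTheory hX h i,
    fun a b c t => Pool.Agent.Z125.UN.smooth_hypS t⟩
  · have h := Pool.Agent.J4H10.TF.tate_dim hJ d
    have h12 : (∀ X : Sch k, FT True X → Smooth X.hom → topologicalKrullDim X.left ≤ d →
        StrongTate T X) ↔ ∀ (a b c : ℕ) (t : Fin a → Fin b → Fin c → k),
          (a ≤ d + 2 ∨ b ≤ d + 2 ∨ c ≤ d + 2) → StrongTate T (hypS t) := h.out 1 2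
    have h02 : (∀ X : Sch k, FT True X → topologicalKrullDim X.left ≤ d → StrongTate T X) ↔
        ∀ (a b c : ℕ) (t : Fin a → Fin b → Fin c → k),
          (a ≤ d + 2 ∨ b ≤ d + 2 ∨ c ≤ d + 2) → StrongTate T (hypS t) := h.out 0 2
    tfae_have 1 → 2 := fun h1 X hX h2 => h1 X hX h2.2
    tfae_have 2 → 3 := fun h1 a b c t hm => h12.mp (fun X hX h2 h3 => h1 X hX ⟨h2, h3⟩) a b c t hm
    tfae_have 3 → 1 := fun h1 X hX h2 => h02.mpr (fun a b c t hm => h1 a b c t hm) X hX h2
    tfae_finish
  · have h := Pool.Agent.J4H10.TF.tate_all hJ (S := Set.univ) trivial trivial presents_univ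
    exact ⟨fun h1 a b c t _ => h.mp (fun X hX => h1 X hX trivial) a b c t fun _ _ _ => trivial,
      fun h1 X hX _ => h.mpr (fun a b c t _ => h1 a b c t trivial) X hX⟩
  · have h := Pool.Agent.J4H10.TF.tate_all hJ (S := {0, 1}) (Or.inl rfl) (Or.inr rfl)
      (presents_zero_one hk)
    exact ⟨fun h1 a b c t ht => h.mp (fun X hX => h1 X hX trivial) a b c t ht,
      fun h1 X hX _ => h.mpr (fun a b c t ht => h1 a b c t ht) X hX⟩

end Pool.Agent.Results.MP_4776b1_ag.TrilinearForms
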